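import Pool.Agent.N9.GS.Main

/-!
MP_38adfa_al, Q1: the answer is no.  Over every field there is a gendo-symmetric finite-dimensional
algebra `A` with `gldim A = 4` and `idim_{A^e}(A) ≤ 6 < 8 = 2 gldim A`.

The algebra is `A = End_B(M)`, where `B` is the symmetric Nakayama algebra with three simple modules
`S₀, S₁, S₂` and Loewy length 4 and `M = B ⊕ S₀ ⊕ X ⊕ S₁` with `X` uniserial with top `S₀` and
socle `S₁`; `dim A = 25`.
-/

set_option autoImplicit false

open CategoryTheory TensorProduct MulOpposite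

namespace Pool.Agent.Results.MP_38adfa_al.BimoduleInjDim

universe u

/-- `B` is a symmetric algebra: `B` is isomorphic to its dual `D(B) = Hom_K(B, K)` as a bimodule,
where `(a f b)(y) = f(b y a)`. -/
def IsSymmetricAlgebra (K B : Type u) [Field K] [Ring B] [Algebra K B] : Prop :=
  ∃ e : B ≃ₗ[K] Module.Dual K B, ∀ a x b y : B, e (a * x * b) y = e x (b * y * a)

/-- The module `M` has the regular module `B` as a direct summand. -/
def IsGenerator (B M : Type u) [Ring B] [AddCommGroup M] [Module B M] : Prop :=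
  ∃ (i : B →ₗ[B] M) (p : M →ₗ[B] B), p ∘ₗ i = LinearMap.id

/-- `A` is gendo-symmetric: `A ≅ End_B(M)` for a finite-dimensional symmetric algebra `B` and a
finite-dimensional generator `M`. -/
def IsGendoSymmetric (K A : Type u) [Field K] [Ring A] [Algebra K A] : Prop :=
  ∃ (B : Type u) (_ : Ring B) (_ : Algebra K B) (M : Type u) (_ : AddCommGroup M)
    (_ : Module K M) (_ : Module B M) (_ : IsScalarTower K B M),
    Module.Finite K B ∧ Module.Finite K M ∧ IsSymmetricAlgebra K B ∧ IsGenerator B M ∧
      Nonempty (A ≃ₐ[K] Module.End B M)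

/-- The global dimension: the supremum of the projective dimensions of all modules. -/
noncomputable def globalDimension (A : Type u) [Ring A] : WithBot ℕ∞ :=
  ⨆ M : ModuleCat.{u} A, projectiveDimension M

/-- The injective dimension of `A` as a module over `A ⊗[K] Aᵐᵒᵖ`, acting by
`(a ⊗ b) x = a x b`. -/
noncomputable def bimoduleInjectiveDimension (K A : Type u) [Field K] [Ring A] [Algebra K A] :
    WithBot ℕ∞ :=
  letI : Module (A ⊗[K] Aᵐᵒᵖ) A := TensorProduct.Algebra.module
  injectiveDimension (ModuleCat.of (A ⊗[K] Aᵐᵒᵖ) A)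

open Pool.Agent.N9.GS Pool.Agent.N9.GS.Data in
/-- Over every field `K` there is a finite-dimensional gendo-symmetric `K`-algebra `A` with
`gldim A = 4` (attained at a finitely generated module) and `idim_{A^e}(A) ≤ 6`, so
`idim_{A^e}(A) ≠ 2 gldim A`. -/
theorem result (K : Type u) [Field K] :
    ∃ (A : Type u) (_ : Ring A) (_ : Algebra K A), Module.Finite K A ∧ IsGendoSymmetric K A ∧
      globalDimension A = ((4 : ℕ) : WithBot ℕ∞) ∧
      (∃ S : ModuleCat.{u} A, Module.Finite A S ∧
        projectiveDimension S = ((4 : ℕ) : WithBot ℕ∞)) ∧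
      bimoduleInjectiveDimension K A ≤ ((6 : ℕ) : WithBot ℕ∞) ∧
      bimoduleInjectiveDimension K A ≠ ((2 * 4 : ℕ) : WithBot ℕ∞) := by
  have hS1 : projectiveDimension (ModuleCat.of (Ak K) (MMod K simp3)) ≤ ((4 : ℕ) : WithBot ℕ∞) :=
    (projectiveDimension_le_iff _ 4).2 (pd_ak K (MMod K simp3))
  have hS2 : ((4 : ℕ) : WithBot ℕ∞) ≤ projectiveDimension (ModuleCat.of (Ak K) (MMod K simp3)) :=
    (projectiveDimension_ge_iff _ 4).2 (not_pd K)
  have hid : bimoduleInjectiveDimension K (Ak K) ≤ ((6 : ℕ) : WithBot ℕ∞) :=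
    (injectiveDimension_le_iff _ 6).2 (id_bimod K)
  refine ⟨Ak K, inferInstance, inferInstance, inferInstance, ?_, ?_, ?_, hid, ?_⟩
  · refine ⟨Bk K, inferInstance, inferInstance, Mk K, inferInstance, inferInstance, inferInstance,
      inferInstance, inferInstance, inferInstance, ?_, ?_, ⟨AlgEquiv.refl⟩⟩
    · let f : Bk K →ₗ[K] Module.Dual K (Bk K) := (LinearMap.mul K (Bk K)).compr₂ (lam K)
      have hf : Function.Injective f := by
        rw [← LinearMap.ker_eq_bot, LinearMap.ker_eq_bot']
        intro a ha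
        exact lam_nondeg K a fun b => LinearMap.congr_fun ha b
      refine ⟨LinearEquiv.ofInjectiveOfFinrankEq f hf Subspace.dual_finrank_eq.symm,
        fun a x b y => ?_⟩
      show lam K (a * x * b * y) = lam K (x * (b * y * a))
      rw [mul_assoc, mul_assoc, lam_comm, mul_assoc, mul_assoc]
    · obtain ⟨i, p, h⟩ := generator K
      exact ⟨i, p, LinearMap.ext h⟩
  · refine le_antisymm (iSup_le fun M => ?_) (le_iSup_of_le _ hS2)
    exact (projectiveDimension_le_iff _ 4).2 (pd_ak K M)
  · refine ⟨ModuleCat.of (Ak K) (MMod K simp3), ?_, le_antisymm hS1 hS2⟩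
    have : Module.Finite K (MMod K simp3) := inferInstance
    exact Module.Finite.of_restrictScalars_finite K (Ak K) (MMod K simp3)
  · intro h
    rw [h] at hid
    have h1 : ((2 * 4 : ℕ) : WithBot ℕ∞) ≤ ((6 : ℕ) : WithBot ℕ∞) := hid
    rw [Nat.cast_le] at h1
    omega

end Pool.Agent.Results.MP_38adfa_al.BimoduleInjDim
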